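import Pool.Agent.N227.CF.Low
import Pool.Agent.Y890.MV.Main

/-!
# Integral points on a hypersurface in all conjugates
-/

set_option autoImplicit false
set_option linter.unusedSectionVars false

open NumberField Module

namespace Pool.Agent.N227.CF

open Pool.Agent.N207.CF

theorem totalDegree_bind₁_linear {σ τ : Type} (g : σ → MvPolynomial τ ℂ) (hg : ∀ i, (g i).totalDegree ≤ 1)
    (Φ : MvPolynomial σ ℂ) : (MvPolynomial.bind₁ g Φ).totalDegree ≤ Φ.totalDegree := by
  classical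
  conv_lhs => rw [Φ.as_sum]
  rw [map_sum]
  refine MvPolynomial.totalDegree_finsetSum_le fun s hs => ?_
  rw [MvPolynomial.bind₁_monomial]
  refine (MvPolynomial.totalDegree_mul _ _).trans ?_
  rw [MvPolynomial.totalDegree_C, zero_add]
  refine (MvPolynomial.totalDegree_finsetProd _ _).trans ?_
  refine le_trans (Finset.sum_le_sum fun i _ => ?_) (MvPolynomial.le_totalDegree hs)
  refine (MvPolynomial.totalDegree_pow _ _).trans ?_
  have := Nat.mul_le_mul_left (s i) (hg i)
  simpa using this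

theorem exists_coords (K : Type) [Field K] [NumberField K] (v : (K →+* ℂ) → ℂ) :
    ∃ m : (K →+* ℂ) → ℂ, ∀ φ : K →+* ℂ, ∑ i, φ ((Bas K i : 𝓞 K) : K) * m i = v φ := by
  classical
  refine ⟨((basisMatrix K).transpose)⁻¹.mulVec v, fun φ => ?_⟩
  have h1 : (basisMatrix K).transpose.mulVec (((basisMatrix K).transpose)⁻¹.mulVec v) = v := by
    rw [Matrix.mulVec_mulVec, Matrix.mul_nonsing_inv, Matrix.one_mulVec]
    rw [Matrix.det_transpose]
    exact (det_of_basisMatrix_non_zero K).isUnit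
  have h2 := congrFun h1 φ
  rw [← h2]
  simp only [Matrix.mulVec, dotProduct]
  refine Finset.sum_congr rfl fun i _ => ?_
  congr 1
  simp [Bas, basisMatrix, Matrix.transpose_apply, integralBasis_apply]

theorem up : StmUp := by
  intro K X _ _ _ _
  classical
  obtain ⟨c1, hc1, H1⟩ := repr_bound K
  set N := Module.finrank ℚ K * Fintype.card X with hN
  refine ⟨(2 * c1 + 1) ^ (N - 1), by positivity, fun Φ hΦ T hT b hb => ?_⟩
  set S : Set (X → 𝓞 K) := {a : X → 𝓞 K | (∀ j, house (a j : K) ≤ T) ∧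
      MvPolynomial.eval (fun p => p.1 (a p.2 : K) / p.1 (b p.2 : K)) Φ = 0} with hS
  obtain ⟨c, C, _, _, hlow⟩ := low K X
  have hfin : S.Finite := (hlow T hT).1.subset fun a ha => ha.1
  refine ⟨hfin, ?_⟩
  have hb' : ∀ (φ : K →+* ℂ) (j : X), φ (b j : K) ≠ 0 := by
    intro φ j
    rw [Ne, map_eq_zero]
    exact_mod_cast (hb j)
  set g : (K →+* ℂ) × X → MvPolynomial (X × (K →+* ℂ)) ℂ := fun p =>
    ∑ i, MvPolynomial.C (p.1 ((Bas K i : 𝓞 K) : K) / p.1 (b p.2 : K)) * MvPolynomial.X (p.2, i) with hg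
  set Ψ := MvPolynomial.bind₁ g Φ with hΨ
  have heval : ∀ m : X × (K →+* ℂ) → ℂ, MvPolynomial.eval m Ψ =
      MvPolynomial.eval (fun p => (∑ i, p.1 ((Bas K i : 𝓞 K) : K) * m (p.2, i)) / p.1 (b p.2 : K)) Φ := by
    intro m
    rw [hΨ, ← MvPolynomial.coe_aeval_eq_eval, RingHom.coe_coe, MvPolynomial.aeval_bind₁,
      ← MvPolynomial.coe_aeval_eq_eval, RingHom.coe_coe]
    congr 2
    funext p
    rw [hg]
    simp only [map_sum, map_mul, MvPolynomial.aeval_X, MvPolynomial.aeval_C, Algebra.algebraMap_self, RingHom.id_apply]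
    rw [Finset.sum_div]
    refine Finset.sum_congr rfl fun i _ => ?_
    ring
  have hΨ0 : Ψ ≠ 0 := by
    obtain ⟨z, hz⟩ : ∃ z, MvPolynomial.eval z Φ ≠ 0 := by
      by_contra hcon
      push Not at hcon
      exact hΦ (MvPolynomial.funext fun z => by rw [hcon z, map_zero])
    have hm : ∀ j : X, ∃ m : (K →+* ℂ) → ℂ, ∀ φ : K →+* ℂ,
        ∑ i, φ ((Bas K i : 𝓞 K) : K) * m i = z (φ, j) * φ (b j : K) := fun j =>
      exists_coords K fun φ => z (φ, j) * φ (b j : K)
    choose m hm using hm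
    intro h0
    have h1 := heval fun p => m p.1 p.2
    rw [h0, map_zero] at h1
    apply hz
    rw [h1]
    congr 2
    funext p
    obtain ⟨φ, j⟩ := p
    simp only
    rw [hm j φ, mul_div_assoc, div_self (hb' φ j), mul_one]
  have hdeg : Ψ.totalDegree ≤ Φ.totalDegree := by
    refine totalDegree_bind₁_linear g (fun p => ?_) Φ
    rw [hg]
    refine MvPolynomial.totalDegree_finsetSum_le fun i _ => ?_
    refine (MvPolynomial.totalDegree_mul _ _).trans ?_
    rw [MvPolynomial.totalDegree_C, MvPolynomial.totalDegree_X]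
  set M := ⌊c1 * T⌋₊ with hM
  set B : Set ℚ := (fun z : ℤ => (z : ℚ)) '' Set.Icc (-(M : ℤ)) M with hB
  have hBfin : B.Finite := (Set.finite_Icc _ _).image _
  have hBn : B.ncard ≤ 2 * M + 1 := by
    refine (Set.ncard_image_le (Set.finite_Icc _ _)).trans ?_
    have : (Set.Icc (-(M : ℤ)) M) = ((Finset.Icc (-(M : ℤ)) M : Finset ℤ) : Set ℤ) := by simp
    rw [this, Set.ncard_coe_finset, Int.card_Icc]
    omega
  have hsz := Pool.Agent.Y890.MV.sz_count' (X := X × (K →+* ℂ)) (K := ℚ) Ψ hΨ0 (algebraMap ℚ ℂ) B hBfin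
  have hsub : S.ncard ≤ {s : X × (K →+* ℂ) → ℚ | (∀ j, s j ∈ B) ∧
      MvPolynomial.eval (fun j => (algebraMap ℚ ℂ) (s j)) Ψ = 0}.ncard := by
    refine Set.ncard_le_ncard_of_injOn (fun a p => ((Co K X a p : ℤ) : ℚ)) ?_ ?_ ?_
    · rintro a ⟨ha, ha'⟩
      refine ⟨fun p => ?_, ?_⟩
      · refine ⟨Co K X a p, ?_, rfl⟩
        have h1 : |((Co K X a p : ℤ) : ℝ)| ≤ c1 * T :=
          (H1 (a p.1) p.2).trans (mul_le_mul_of_nonneg_left (ha p.1) hc1)
        have h2 : ((Co K X a p).natAbs : ℝ) ≤ c1 * T := by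
          rw [Nat.cast_natAbs]
          push_cast
          exact h1
        have h3 := Nat.le_floor h2
        rw [Set.mem_Icc, ← abs_le, Int.abs_eq_natAbs]
        exact_mod_cast h3
      · rw [← ha', heval]
        congr 2
        funext p
        congr 1
        have h1 : (a p.2 : K) = ∑ i, ((Co K X a (p.2, i) : ℤ) : K) * ((Bas K i : 𝓞 K) : K) := by
          have h2 := (Bas K).sum_repr (a p.2)
          conv_lhs => rw [← h2]
          simp [Co, map_sum, zsmul_eq_mul]
        rw [h1, map_sum]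
        refine Finset.sum_congr rfl fun i _ => ?_
        rw [map_mul, map_intCast, mul_comm]
        simp
    · intro a _ a' _ haa
      apply co_inj K X
      funext p
      have h1 : ((Co K X a p : ℤ) : ℚ) = ((Co K X a' p : ℤ) : ℚ) := congrFun haa p
      exact_mod_cast h1
    · exact (Set.Finite.pi' fun _ => hBfin).subset fun s hs => hs.1
  have hcard := card_E K X
  rw [hcard] at hsz
  have h1 : S.ncard ≤ Φ.totalDegree * (2 * M + 1) ^ (N - 1) := by
    refine (hsub.trans hsz).trans ?_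
    exact Nat.mul_le_mul hdeg (Nat.pow_le_pow_left hBn _)
  have h2 : (S.ncard : ℝ) ≤ Φ.totalDegree * (2 * (M : ℝ) + 1) ^ (N - 1) := by exact_mod_cast h1
  refine h2.trans ?_
  have h3 : (M : ℝ) ≤ c1 * T := Nat.floor_le (by positivity)
  have h4 : (2 * (M : ℝ) + 1) ^ (N - 1) ≤ ((2 * c1 + 1) * T) ^ (N - 1) :=
    pow_le_pow_left₀ (by positivity) (by linarith) _
  rw [mul_pow] at h4
  calc (Φ.totalDegree : ℝ) * (2 * (M : ℝ) + 1) ^ (N - 1)
      ≤ Φ.totalDegree * ((2 * c1 + 1) ^ (N - 1) * T ^ (N - 1)) :=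
        mul_le_mul_of_nonneg_left h4 (by positivity)
    _ = _ := by ring

end Pool.Agent.N227.CF
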