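import Pool.Agent.N783.CF.Stm

/-!
# Matrices of corank at least two modulo a prime ideal
-/

set_option autoImplicit false

open Polynomial NumberField Matrix
open scoped Classical

namespace Pool.Agent.N227.CF

section
variable {R ι : Type} [CommRing R] [Fintype ι] [DecidableEq ι]

/-- the determinant of a matrix with two columns in `I` -/
theorem det_mem_sq (I : Ideal R) (N : Matrix ι ι R) (a b : ι) (hab : a ≠ b)
    (ha : ∀ i, N i a ∈ I) (hb : ∀ i, N i b ∈ I) : N.det ∈ I ^ 2 := by
  rw [Matrix.det_apply']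
  refine Ideal.sum_mem _ fun σ _ => Ideal.mul_mem_left _ _ ?_
  rw [← Finset.mul_prod_erase Finset.univ _ (Finset.mem_univ a),
    ← Finset.mul_prod_erase (Finset.univ.erase a) _
      (Finset.mem_erase.2 ⟨hab.symm, Finset.mem_univ b⟩), ← mul_assoc, pow_two]
  exact Ideal.mul_mem_right _ _ (Ideal.mul_mem_mul (ha _) (hb _))

theorem det2 (I : Ideal R) (hI : I.IsMaximal) (M : Matrix ι ι R) (x y : ι → R)
    (hx : ∀ i, (M *ᵥ x) i ∈ I) (hy : ∀ i, (M *ᵥ y) i ∈ I)
    (hab : ∃ a b, x a * y b - x b * y a ∉ I) : M.det ∈ I ^ 2 := by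
  obtain ⟨a, b, hu⟩ := hab
  have hne : a ≠ b := by
    rintro rfl
    apply hu
    rw [sub_self]
    exact I.zero_mem
  let U : Matrix ι (Fin 2) R := fun i j =>
    if j = 0 then x i - (if i = a then 1 else 0) else y i - (if i = b then 1 else 0)
  let V : Matrix (Fin 2) ι R := fun j i => if j = 0 then (if i = a then 1 else 0) else
    (if i = b then 1 else 0)
  obtain ⟨P, hP⟩ : ∃ P : Matrix ι ι R, P = 1 + U * V := ⟨_, rfl⟩
  have hPa : ∀ i, P i a = x i := by
    intro i
    rw [hP, Matrix.add_apply, Matrix.mul_apply, Fin.sum_univ_two, Matrix.one_apply]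
    simp [U, V, hne]
  have hPb : ∀ i, P i b = y i := by
    intro i
    rw [hP, Matrix.add_apply, Matrix.mul_apply, Fin.sum_univ_two, Matrix.one_apply]
    simp [U, V, hne.symm]
  have hdet : P.det = x a * y b - x b * y a := by
    rw [hP, Matrix.det_one_add_mul_comm, Matrix.det_fin_two]
    simp [U, V, Matrix.mul_apply, hne, hne.symm]
    ring
  have hMa : ∀ i, (M * P) i a ∈ I := by
    intro i
    have h := hx i
    rw [Matrix.mul_apply]
    simpa [Matrix.mulVec, dotProduct, hPa] using h
  have hMb : ∀ i, (M * P) i b ∈ I := by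
    intro i
    have h := hy i
    rw [Matrix.mul_apply]
    simpa [Matrix.mulVec, dotProduct, hPb] using h
  have h1 := det_mem_sq I (M * P) a b hne hMa hMb
  rw [Matrix.det_mul, hdet] at h1
  obtain ⟨v, hv⟩ := hI.exists_inv hu
  obtain ⟨w, hw, hvw⟩ := hv
  have e : M.det = v * (M.det * (x a * y b - x b * y a)) +
      w * v * (M.det * (x a * y b - x b * y a)) + M.det * (w * w) := by
    linear_combination (-M.det * (1 + w)) * hvw
  rw [e]
  have hww : w * w ∈ I ^ 2 := by
    rw [pow_two]
    exact Ideal.mul_mem_mul hw hw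
  exact add_mem (add_mem (Ideal.mul_mem_left _ _ h1) (Ideal.mul_mem_left _ _ h1))
    (Ideal.mul_mem_left _ _ hww)

end

open Pool.Agent.N783.CF in
theorem t_DET2 : S_DET2 := by
  intro F _ _ 𝔭 ι _ _ M x y hp hne hx hy hab
  exact det2 𝔭 (hp.isMaximal hne) M x y hx hy hab

end Pool.Agent.N227.CF
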