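import Pool.Agent.N207.CF.Stm

/-!
# Integral points of bounded house: lattice coordinates, counting
-/

set_option autoImplicit false
set_option linter.unusedSectionVars false

open NumberField Module

namespace Pool.Agent.N227.CF

open Pool.Agent.N207.CF

/-- integral basis indexed by the embeddings -/
noncomputable def Bas (K : Type) [Field K] [NumberField K] : Basis (K →+* ℂ) ℤ (𝓞 K) :=
  (RingOfIntegers.basis K).reindex (equivReindex K).symm

theorem repr_bound (K : Type) [Field K] [NumberField K] : ∃ c1 : ℝ, 0 ≤ c1 ∧ ∀ (a : 𝓞 K) (i : K →+* ℂ),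
    |(((Bas K).repr a i : ℤ) : ℝ)| ≤ c1 * house (a : K) := by
  classical
  obtain ⟨c, hc⟩ : ∃ c : ℝ, ∀ (a : 𝓞 K) (i : K →+* ℂ),
      ‖(((integralBasis K).reindex (equivReindex K).symm).repr a i : ℂ)‖ ≤ c * house (a : K) :=
    ⟨_, fun a i => NumberField.house.basis_repr_norm_le_const_mul_house K a i⟩
  refine ⟨|c|, abs_nonneg _, fun a i => ?_⟩
  have h1 := hc a i
  have h2 : ((integralBasis K).reindex (equivReindex K).symm).repr (a : K) i
      = (((Bas K).repr a i : ℤ) : ℚ) := by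
    have h3 := integralBasis_repr_apply K a (equivReindex K i)
    simp only [Bas, Basis.repr_reindex, Finsupp.mapDomain_equiv_apply, Equiv.symm_symm] at h3 ⊢
    simp at h3
    simp [h3]
  rw [h2] at h1
  have h3 : ‖((((((Bas K).repr a i : ℤ) : ℚ) : ℚ) : ℂ))‖ = |(((Bas K).repr a i : ℤ) : ℝ)| := by
    push_cast
    rw [Complex.norm_intCast]
  rw [h3] at h1
  exact h1.trans (mul_le_mul_of_nonneg_right (le_abs_self c) (house_nonneg _))

theorem house_comb (K : Type) [Field K] [NumberField K] : ∃ c2 : ℝ, 1 ≤ c2 ∧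
    ∀ (m : (K →+* ℂ) → ℤ) (M : ℝ), (∀ i, |(m i : ℝ)| ≤ M) →
      house (((∑ i, m i • (Bas K) i : 𝓞 K)) : K) ≤ c2 * M := by
  classical
  refine ⟨1 + ∑ i, house ((Bas K i : 𝓞 K) : K), ?_, fun m M hm => ?_⟩
  · have : 0 ≤ ∑ i, house ((Bas K i : 𝓞 K) : K) := Finset.sum_nonneg fun i _ => house_nonneg _
    linarith
  have hM : 0 ≤ M := by
    obtain ⟨i⟩ : Nonempty (K →+* ℂ) := inferInstance
    exact (abs_nonneg _).trans (hm i)
  have e1 : (((∑ i, m i • (Bas K) i : 𝓞 K)) : K) = ∑ i, ((m i : K) * ((Bas K i : 𝓞 K) : K)) := by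
    simp [map_sum, zsmul_eq_mul]
  rw [e1]
  refine (house_sum_le_sum_house _ _).trans ?_
  have h2 : ∀ i, house ((m i : K) * ((Bas K i : 𝓞 K) : K)) ≤ M * house ((Bas K i : 𝓞 K) : K) := by
    intro i
    refine (house_mul_le _ _).trans ?_
    rw [house_intCast]
    refine mul_le_mul_of_nonneg_right ?_ (house_nonneg _)
    have := hm i
    rwa [← Int.cast_abs] at this
  calc ∑ i, house ((m i : K) * ((Bas K i : 𝓞 K) : K)) ≤ ∑ i, M * house ((Bas K i : 𝓞 K) : K) :=
        Finset.sum_le_sum fun i _ => h2 i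
    _ = (∑ i, house ((Bas K i : 𝓞 K) : K)) * M := by rw [← Finset.mul_sum, mul_comm]
    _ ≤ (1 + ∑ i, house ((Bas K i : 𝓞 K) : K)) * M := mul_le_mul_of_nonneg_right (by linarith) hM

/-- integral box -/
def Box (Y : Type) (M : ℕ) : Set (Y → ℤ) := {m | ∀ y, |m y| ≤ M}

theorem box_finite (Y : Type) [Fintype Y] (M : ℕ) : (Box Y M).Finite := by
  classical
  have : Box Y M = ((Fintype.piFinset fun _ : Y => Finset.Icc (-(M : ℤ)) M : Finset (Y → ℤ)) : Set (Y → ℤ)) := by
    ext m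
    simp only [Box, Set.mem_setOf_eq, Finset.mem_coe, Fintype.mem_piFinset, Finset.mem_Icc, abs_le]
  rw [this]
  exact Finset.finite_toSet _

theorem box_ncard (Y : Type) [Fintype Y] (M : ℕ) : (Box Y M).ncard = (2 * M + 1) ^ Fintype.card Y := by
  classical
  have : Box Y M = ((Fintype.piFinset fun _ : Y => Finset.Icc (-(M : ℤ)) M : Finset (Y → ℤ)) : Set (Y → ℤ)) := by
    ext m
    simp only [Box, Set.mem_setOf_eq, Finset.mem_coe, Fintype.mem_piFinset, Finset.mem_Icc, abs_le]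
  rw [this, Set.ncard_coe_finset, Fintype.card_piFinset]
  simp only [Int.card_Icc, Finset.prod_const, Finset.card_univ]
  congr 1
  omega

/-- lattice coordinates of a tuple of integers -/
noncomputable def Co (K X : Type) [Field K] [NumberField K] (a : X → 𝓞 K) : X × (K →+* ℂ) → ℤ :=
  fun p => (Bas K).repr (a p.1) p.2

theorem co_inj (K X : Type) [Field K] [NumberField K] : Function.Injective (Co K X) := by
  intro a b hab
  funext j
  apply (Bas K).repr.injective
  ext i
  exact congrFun hab (j, i)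

/-- the tuple with given lattice coordinates -/
noncomputable def Tu (K X : Type) [Field K] [NumberField K] (m : X × (K →+* ℂ) → ℤ) : X → 𝓞 K :=
  fun j => ∑ i, m (j, i) • (Bas K) i

theorem tu_inj (K X : Type) [Field K] [NumberField K] : Function.Injective (Tu K X) := by
  classical
  intro m m' h
  funext p
  obtain ⟨j, i⟩ := p
  have h1 := congrFun h j
  have h2 := congrArg (fun a => (Bas K).repr a i) h1
  simp only [Tu] at h2
  rw [Basis.repr_sum_self, Basis.repr_sum_self] at h2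
  exact h2

theorem card_E (K : Type) [Field K] [NumberField K] (X : Type) [Fintype X] :
    Fintype.card (X × (K →+* ℂ)) = Module.finrank ℚ K * Fintype.card X := by
  rw [Fintype.card_prod, Embeddings.card, mul_comm]

theorem low : StmLow := by
  intro K X _ _ _
  classical
  obtain ⟨c1, hc1, H1⟩ := repr_bound K
  obtain ⟨c2, hc2, H2⟩ := house_comb K
  set D := Module.finrank ℚ K * Fintype.card X with hD
  refine ⟨(1 / c2) ^ D, (2 * c1 + 1) ^ D, by positivity, by positivity, fun T hT => ?_⟩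
  set S : Set (X → 𝓞 K) := {a : X → 𝓞 K | ∀ j, house (a j : K) ≤ T} with hS
  have hmaps : Set.MapsTo (Co K X) S (Box (X × (K →+* ℂ)) ⌊c1 * T⌋₊) := by
    rintro a ha ⟨j, i⟩
    have h1 : |(((Bas K).repr (a j) i : ℤ) : ℝ)| ≤ c1 * T :=
      (H1 (a j) i).trans (mul_le_mul_of_nonneg_left (ha j) hc1)
    have h2 : (((Bas K).repr (a j) i).natAbs : ℝ) ≤ c1 * T := by
      rw [Nat.cast_natAbs]
      push_cast
      exact h1
    have h3 := Nat.le_floor h2
    have h4 : |(Bas K).repr (a j) i| ≤ ((⌊c1 * T⌋₊ : ℕ) : ℤ) := by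
      rw [Int.abs_eq_natAbs]
      exact_mod_cast h3
    exact h4
  have hfin : S.Finite :=
    Set.Finite.of_injOn hmaps ((co_inj K X).injOn) (box_finite _ _)
  refine ⟨hfin, ?_, ?_⟩
  · have hmaps2 : Set.MapsTo (Tu K X) (Box (X × (K →+* ℂ)) ⌊T / c2⌋₊) S := by
      intro m hm j
      have h1 := H2 (fun i => m (j, i)) (T / c2) (fun i => by
        have h2 := hm (j, i)
        have h3 : ((⌊T / c2⌋₊ : ℕ) : ℝ) ≤ T / c2 := Nat.floor_le (by positivity)
        have h4 : |((m (j, i) : ℤ) : ℝ)| ≤ ((⌊T / c2⌋₊ : ℕ) : ℝ) := by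
          exact_mod_cast h2
        exact h4.trans h3)
      have h5 : c2 * (T / c2) = T := by
        field_simp
      rw [h5] at h1
      exact h1
    have h1 : (Box (X × (K →+* ℂ)) ⌊T / c2⌋₊).ncard ≤ S.ncard :=
      Set.ncard_le_ncard_of_injOn _ hmaps2 ((tu_inj K X).injOn) hfin
    rw [box_ncard, card_E] at h1
    have h2 : (((2 * ⌊T / c2⌋₊ + 1) ^ D : ℕ) : ℝ) ≤ (S.ncard : ℝ) := by exact_mod_cast h1
    refine le_trans ?_ h2
    rw [← mul_pow]
    push_cast
    refine pow_le_pow_left₀ (by positivity) ?_ _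
    have h3 : T / c2 < (⌊T / c2⌋₊ : ℝ) + 1 := Nat.lt_floor_add_one _
    have h4 : 1 / c2 * T = T / c2 := by ring
    have h5 : (0 : ℝ) ≤ (⌊T / c2⌋₊ : ℝ) := Nat.cast_nonneg _
    rw [h4]
    linarith
  · have h1 : S.ncard ≤ (Box (X × (K →+* ℂ)) ⌊c1 * T⌋₊).ncard :=
      Set.ncard_le_ncard_of_injOn _ hmaps ((co_inj K X).injOn) (box_finite _ _)
    rw [box_ncard, card_E] at h1
    have h2 : (S.ncard : ℝ) ≤ (((2 * ⌊c1 * T⌋₊ + 1) ^ D : ℕ) : ℝ) := by exact_mod_cast h1
    refine h2.trans ?_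
    rw [← mul_pow]
    push_cast
    refine pow_le_pow_left₀ (by positivity) ?_ _
    have h3 : (⌊c1 * T⌋₊ : ℝ) ≤ c1 * T := Nat.floor_le (by positivity)
    linarith

end Pool.Agent.N227.CF
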